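import Mathlib

set_option autoImplicit false

namespace Pool.Agent.Results.MP_06c496_co.RegularReach

open Complex

/-- The vertex centroid `m = (1/n) ∑ v_i` of the polygon `(v_1, …, v_n)` in the plane `ℂ = ℝ²`. -/
noncomputable def centroid {n : ℕ} (v : Fin n → ℂ) : ℂ := (∑ i, v i) / n

/-- A vertex-centroid move: some vertex `v_i` different from the centroid `m` is replaced by an
arbitrary point of the line through `v_i` and `m`; all other vertices stay fixed. -/
def Move {n : ℕ} (v v' : Fin n → ℂ) : Prop :=
  ∃ i : Fin n, v i ≠ centroid v ∧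
    ∃ t : ℝ, v' = Function.update v i (AffineMap.lineMap (v i) (centroid v) t)

/-- `v'` is obtained from `v` by a finite sequence of vertex-centroid moves. -/
def Reaches {n : ℕ} (v v' : Fin n → ℂ) : Prop := Relation.ReflTransGen Move v v'

/-- A simple polygon: the vertices are distinct, and two different closed edges
`[v_i, v_{i+1}]`, `[v_j, v_{j+1}]` (indices modulo `n`) meet only in common endpoints. -/
def IsSimplePolygon {n : ℕ} [NeZero n] (v : Fin n → ℂ) : Prop :=
  Function.Injective v ∧ ∀ i j : Fin n, i ≠ j →
    segment ℝ (v i) (v (i + 1)) ∩ segment ℝ (v j) (v (j + 1)) ⊆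
      ({v i, v (i + 1)} : Set ℂ) ∩ {v j, v (j + 1)}

/-- A regular polygon with its vertices in cyclic order: `w_k = c + r ζ^k` for all `k`, or
`w_k = c + r ζ^{-k}` for all `k`, with `ζ = exp(2πi/n)`, centre `c` and `r ≠ 0` (`|r|` is the
circumradius and the argument of `r` gives the rotation). -/
def IsRegularPolygon {n : ℕ} (w : Fin n → ℂ) : Prop :=
  ∃ c r : ℂ, r ≠ 0 ∧
    ((∀ k : Fin n, w k = c + r * exp (2 * Real.pi * I * (k : ℕ) / n)) ∨
     (∀ k : Fin n, w k = c + r * exp (-(2 * Real.pi * I * (k : ℕ) / n))))

theorem reaches_trans {n : ℕ} {u v w : Fin n → ℂ} (h1 : Reaches u v) (h2 : Reaches v w) :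
    Reaches u w := Relation.ReflTransGen.trans h1 h2

theorem reaches_step {n : ℕ} (v : Fin n → ℂ) (i : Fin n) (t : ℝ) :
    Reaches v (Function.update v i (v i + t * (centroid v - v i))) := by
  by_cases h : v i = centroid v
  · have : Function.update v i (v i + t * (centroid v - v i)) = v := by
      rw [h]
      simp only [sub_self, mul_zero, add_zero]
      rw [← h, Function.update_eq_self]
    rw [this]
    exact Relation.ReflTransGen.refl
  · refine Relation.ReflTransGen.single ⟨i, h, t, ?_⟩
    congr 1
    rw [AffineMap.lineMap_apply]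
    simp only [vsub_eq_sub, real_smul, vadd_eq_add]
    ring

section two

variable {n : ℕ} (v : Fin n → ℂ) (i j : Fin n)

/-- the centroid of all vertices but `i, j` -/
noncomputable def oc : ℂ := (∑ k, v k - v i - v j) / (n - 2)

/-- the configuration with vertices `i, j` placed at `o + a`, `o + b` -/
noncomputable def conf (a b : ℂ) : Fin n → ℂ :=
  Function.update (Function.update v i (oc v i j + a)) j (oc v i j + b)

variable {i j} (hn : 3 ≤ n) (hij : i ≠ j)
include hn hij

theorem centroid_conf (a b : ℂ) : centroid (conf v i j a b) = oc v i j + (a + b) / n := by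
  have hn0 : (n : ℂ) ≠ 0 := by
    have : n ≠ 0 := by omega
    exact_mod_cast this
  have hn2 : (n : ℂ) - 2 ≠ 0 := by
    have : (n : ℤ) - 2 ≠ 0 := by omega
    exact_mod_cast this
  have h1 : ∑ k, conf v i j a b k = (∑ k, v k - v i - v j) + (oc v i j + a) + (oc v i j + b) := by
    unfold conf
    rw [Finset.sum_update_of_mem (Finset.mem_univ j)]
    have hi : i ∈ Finset.univ \ {j} := by simp [hij]
    rw [Finset.sum_update_of_mem hi]
    have e1 : ∑ k, v k = v j + ∑ k ∈ Finset.univ \ {j}, v k := by
      rw [Finset.sdiff_singleton_eq_erase, Finset.add_sum_erase _ _ (Finset.mem_univ j)]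
    have e2 : ∑ k ∈ Finset.univ \ {j}, v k = v i + ∑ k ∈ (Finset.univ \ {j}) \ {i}, v k := by
      rw [Finset.sdiff_singleton_eq_erase i, Finset.add_sum_erase _ _ hi]
    rw [e1, e2]
    ring
  have h2 : ∑ k, v k - v i - v j = (n - 2) * oc v i j := by
    unfold oc
    field_simp
  unfold centroid
  rw [h1, h2]
  field_simp
  ring

theorem reach_A (s : ℝ) (a b : ℂ) :
    Reaches (conf v i j a b) (conf v i j (s * a + (1 - s) / (n - 1) * b) b) := by
  have hn0 : (n : ℂ) ≠ 0 := by
    have : n ≠ 0 := by omega
    exact_mod_cast this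
  have hn1 : (n : ℂ) - 1 ≠ 0 := by
    have : (n : ℤ) - 1 ≠ 0 := by omega
    exact_mod_cast this
  have h := reaches_step (conf v i j a b) i ((1 - s) * n / (n - 1))
  rw [centroid_conf v hn hij] at h
  have hi : conf v i j a b i = oc v i j + a := by
    unfold conf
    rw [Function.update_of_ne hij, Function.update_self]
  rw [hi] at h
  have : Function.update (conf v i j a b) i (oc v i j + a +
      (((1 - s) * n / (n - 1) : ℝ) : ℂ) * (oc v i j + (a + b) / n - (oc v i j + a))) =
      conf v i j (s * a + (1 - s) / (n - 1) * b) b := by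
    unfold conf
    rw [Function.update_comm hij.symm, Function.update_idem]
    congr 2
    push_cast
    field_simp
    ring
  rwa [this] at h

theorem reach_B (s : ℝ) (a b : ℂ) :
    Reaches (conf v i j a b) (conf v i j a (s * b + (1 - s) / (n - 1) * a)) := by
  have hn0 : (n : ℂ) ≠ 0 := by
    have : n ≠ 0 := by omega
    exact_mod_cast this
  have hn1 : (n : ℂ) - 1 ≠ 0 := by
    have : (n : ℤ) - 1 ≠ 0 := by omega
    exact_mod_cast this
  have h := reaches_step (conf v i j a b) j ((1 - s) * n / (n - 1))
  rw [centroid_conf v hn hij] at h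
  have hj : conf v i j a b j = oc v i j + b := by
    unfold conf
    rw [Function.update_self]
  rw [hj] at h
  have : Function.update (conf v i j a b) j (oc v i j + b +
      (((1 - s) * n / (n - 1) : ℝ) : ℂ) * (oc v i j + (a + b) / n - (oc v i j + b))) =
      conf v i j a (s * b + (1 - s) / (n - 1) * a) := by
    unfold conf
    rw [Function.update_idem]
    congr 1
    push_cast
    field_simp
    ring
  rwa [this] at h

theorem reach_U_aux (u : ℝ) (hu : u ≠ 0) (a b : ℂ) :
    Reaches (conf v i j a b) (conf v i j (a +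
      (u - 1) * (9 * ((n - 1) ^ 2 - 1) / ((n - 1) * (2 * (n - 1) ^ 2 - 1))) * b) b) := by
  have hk : (2 : ℝ) ≤ (n : ℝ) - 1 := by
    have : (3 : ℝ) ≤ n := by exact_mod_cast hn
    linarith
  set k : ℝ := (n : ℝ) - 1 with hkdef
  have hk2 : k ^ 2 - 2 ≠ 0 := by nlinarith
  have hk2' : 2 * k ^ 2 - 1 ≠ 0 := by nlinarith
  have hk4 : 4 * k ^ 2 - 2 ≠ 0 := by nlinarith
  have hk0 : k ≠ 0 := by linarith
  have c2 : (k : ℂ) ^ 2 - 2 ≠ 0 := by exact_mod_cast hk2
  have c2' : 2 * (k : ℂ) ^ 2 - 1 ≠ 0 := by exact_mod_cast hk2'
  have c4 : 4 * (k : ℂ) ^ 2 - 2 ≠ 0 := by exact_mod_cast hk4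
  have c0 : (k : ℂ) ≠ 0 := by exact_mod_cast hk0
  have cu : (u : ℂ) ≠ 0 := by exact_mod_cast hu
  have hkc : (n : ℂ) - 1 = (k : ℂ) := by rw [hkdef]; push_cast; ring
  have hA : ∀ (s : ℝ) (a b : ℂ), Reaches (conf v i j a b)
      (conf v i j (s * a + (1 - s) / (k : ℂ) * b) b) := by
    intro s a b
    have := reach_A v hn hij s a b
    rwa [hkc] at this
  have hB : ∀ (s : ℝ) (a b : ℂ), Reaches (conf v i j a b)
      (conf v i j a (s * b + (1 - s) / (k : ℂ) * a)) := by
    intro s a b
    have := reach_B v hn hij s a b
    rwa [hkc] at this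
  have h1 := hA (1 / u) a b
  have h2 := reaches_trans h1 (hB (1 / 2) _ _)
  have h3 := reaches_trans h2 (hA ((k ^ 2 - 2) / (2 * (2 * k ^ 2 - 1))) _ _)
  have h4 := reaches_trans h3 (hB (-1) _ _)
  have h5 := reaches_trans h4 (hA u _ _)
  have h6 := reaches_trans h5 (hB (-1) _ _)
  have h7 := reaches_trans h6 (hA (2 * (2 * k ^ 2 - 1) / (k ^ 2 - 2)) _ _)
  have h8 := reaches_trans h7 (hB 2 _ _)
  rw [hkc]
  have ea : ∀ {x x' y y' : ℂ}, x = x' → y = y' → Reaches (conf v i j a b) (conf v i j x y) →
      Reaches (conf v i j a b) (conf v i j x' y') := by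
    rintro x x' y y' rfl rfl h
    exact h
  refine ea ?_ ?_ h8
  · push_cast
    field_simp
    ring
  · push_cast
    field_simp
    ring

theorem reach_U (x : ℝ) (a b : ℂ) :
    Reaches (conf v i j a b) (conf v i j (a + x * b) b) := by
  have hk : (2 : ℝ) ≤ (n : ℝ) - 1 := by
    have : (3 : ℝ) ≤ n := by exact_mod_cast hn
    linarith
  set k : ℝ := (n : ℝ) - 1 with hkdef
  have hc : 0 < 9 * (k ^ 2 - 1) / (k * (2 * k ^ 2 - 1)) := by
    apply div_pos <;> nlinarith
  set c : ℝ := 9 * (k ^ 2 - 1) / (k * (2 * k ^ 2 - 1)) with hcdef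
  have hcc : (9 * (((n : ℂ) - 1) ^ 2 - 1) / (((n : ℂ) - 1) * (2 * ((n : ℂ) - 1) ^ 2 - 1))) =
      (c : ℂ) := by
    rw [hcdef, hkdef]
    push_cast
    ring
  have key : ∀ x : ℝ, x ≠ -c → ∀ a b : ℂ,
      Reaches (conf v i j a b) (conf v i j (a + x * b) b) := by
    intro x hx a b
    have hu : x / c + 1 ≠ 0 := by
      intro h
      apply hx
      field_simp at h
      linarith
    have h := reach_U_aux v hn hij (x / c + 1) hu a b
    rw [hcc] at h
    have hc0 : (c : ℂ) ≠ 0 := by exact_mod_cast hc.ne'
    have : (((x / c + 1 : ℝ) : ℂ) - 1) * (c : ℂ) = x := by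
      push_cast
      field_simp
      ring
    rwa [this] at h
  by_cases hx : x = -c
  · have h1 := key (x / 2) (by rw [hx]; intro h; linarith) a b
    have h2 := reaches_trans h1 (key (x / 2) (by rw [hx]; intro h; linarith) _ b)
    have : a + ((x / 2 : ℝ) : ℂ) * b + ((x / 2 : ℝ) : ℂ) * b = a + x * b := by
      push_cast
      ring
    rwa [this] at h2
  · exact key x hx a b

theorem reach_D (p : ℝ) (a b : ℂ) :
    Reaches (conf v i j a b) (conf v i j (p * a) b) := by
  have h1 := reach_A v hn hij p a b
  have h2 := reaches_trans h1 (reach_U v hn hij (-((1 - p) / (n - 1))) _ b)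
  have : (p : ℂ) * a + (1 - p) / (n - 1) * b + ((-((1 - p) / (n - 1)) : ℝ) : ℂ) * b = p * a := by
    push_cast
    ring
  rwa [this] at h2

end two

theorem conf_self {n : ℕ} (v : Fin n → ℂ) (i j : Fin n) :
    conf v i j (v i - oc v i j) (v j - oc v i j) = v := by
  unfold conf
  simp

theorem conf_fst {n : ℕ} (v : Fin n → ℂ) {i j : Fin n} (hij : i ≠ j) (z : ℂ) :
    conf v i j z (v j - oc v i j) = Function.update v i (oc v i j + z) := by
  unfold conf
  rw [Function.update_comm hij]
  simp

section vertex

variable {n : ℕ} (hn : 3 ≤ n)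
include hn

/-- `v_i` may be translated by `x (v_j - o)`, where `o` is the centroid of the vertices other
than `v_i, v_j`. -/
theorem reach_translate_oc (v : Fin n → ℂ) {i j : Fin n} (hij : i ≠ j) (x : ℝ) :
    Reaches v (Function.update v i (v i + x * (v j - oc v i j))) := by
  have h := reach_U v hn hij x (v i - oc v i j) (v j - oc v i j)
  rw [conf_self, conf_fst v hij] at h
  have : oc v i j + (v i - oc v i j + x * (v j - oc v i j)) =
      v i + x * (v j - oc v i j) := by ring
  rwa [this] at h

/-- `v_i` may be scaled from `o`, the centroid of the vertices other than `v_i, v_j`. -/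
theorem reach_scale_oc (v : Fin n → ℂ) {i j : Fin n} (hij : i ≠ j) (p : ℝ) :
    Reaches v (Function.update v i (oc v i j + p * (v i - oc v i j))) := by
  have h := reach_D v hn hij p (v i - oc v i j) (v j - oc v i j)
  rw [conf_self, conf_fst v hij] at h
  exact h

omit hn in
theorem oc_update (v : Fin n → ℂ) {i j : Fin n} (hij : i ≠ j) (z : ℂ) :
    oc (Function.update v i z) i j = oc v i j := by
  unfold oc
  rw [Finset.sum_update_of_mem (Finset.mem_univ i), Function.update_self,
    Function.update_of_ne hij.symm]
  have : ∑ k, v k = v i + ∑ k ∈ Finset.univ \ {i}, v k := by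
    rw [Finset.sdiff_singleton_eq_erase, Finset.add_sum_erase _ _ (Finset.mem_univ i)]
  rw [this]
  congr 1
  ring

/-- `v_i` may be translated by any real multiple of `v_j - v_l`. -/
theorem reach_translate (v : Fin n → ℂ) {i j l : Fin n} (hij : i ≠ j) (hil : i ≠ l) (x : ℝ) :
    Reaches v (Function.update v i (v i + x * (v j - v l))) := by
  have hn2 : (n : ℝ) - 2 ≠ 0 := by
    have : (n : ℤ) - 2 ≠ 0 := by omega
    exact_mod_cast this
  have hn1 : (n : ℝ) - 1 ≠ 0 := by
    have : (n : ℤ) - 1 ≠ 0 := by omega
    exact_mod_cast this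
  have hn2c : (n : ℂ) - 2 ≠ 0 := by exact_mod_cast hn2
  have hn1c : (n : ℂ) - 1 ≠ 0 := by exact_mod_cast hn1
  have h1 := reach_translate_oc hn v hij (x * (n - 2) / (n - 1))
  have h2 := reach_translate_oc hn
    (Function.update v i (v i + ((x * (n - 2) / (n - 1) : ℝ) : ℂ) * (v j - oc v i j))) hil
    (-(x * (n - 2) / (n - 1)))
  rw [Function.update_idem, oc_update v hil, Function.update_self,
    Function.update_of_ne hil.symm] at h2
  have h3 := reaches_trans h1 h2
  have e : v i + ((x * (n - 2) / (n - 1) : ℝ) : ℂ) * (v j - oc v i j) +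
      ((-(x * (n - 2) / (n - 1)) : ℝ) : ℂ) * (v l - oc v i l) = v i + x * (v j - v l) := by
    unfold oc
    push_cast
    field_simp
    ring
  rwa [e] at h3

/-- The general one-vertex move. -/
theorem reach_vertex (v : Fin n → ℂ) {i j l : Fin n} (hij : i ≠ j) (hil : i ≠ l)
    (p t : ℝ) :
    Reaches v (Function.update v i (v l + p * (v i - v l) + t * (v j - v l))) := by
  have h1 := reach_scale_oc hn v hij p
  have h2 := reach_translate_oc hn
    (Function.update v i (oc v i j + p * (v i - oc v i j))) hij (1 - p)
  rw [Function.update_idem, oc_update v hij, Function.update_self,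
    Function.update_of_ne hij.symm] at h2
  have h3 := reach_translate hn (Function.update v i
    (oc v i j + p * (v i - oc v i j) + ((1 - p : ℝ) : ℂ) * (v j - oc v i j))) hij hil
    (t - (1 - p))
  rw [Function.update_idem, Function.update_self,
    Function.update_of_ne hij.symm, Function.update_of_ne hil.symm] at h3
  have h4 := reaches_trans (reaches_trans h1 h2) h3
  have e : oc v i j + p * (v i - oc v i j) + ((1 - p : ℝ) : ℂ) * (v j - oc v i j) +
      ((t - (1 - p) : ℝ) : ℂ) * (v j - v l) =
      v l + p * (v i - v l) + t * (v j - v l) := by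
    push_cast
    ring
  rwa [e] at h4

end vertex

/-- twice the signed area of the triangle `abc` -/
def area (a b c : ℂ) : ℝ :=
  (b.re - a.re) * (c.im - a.im) - (b.im - a.im) * (c.re - a.re)

theorem area_solve (x y z q : ℂ) (h : area x y z ≠ 0) :
    ∃ p t : ℝ, q = z + p * (x - z) + t * (y - z) := by
  refine ⟨area q y z / area x y z, area x q z / area x y z, ?_⟩
  have hc : area x y z ≠ 0 := h
  apply Complex.ext
  · simp only [add_re, mul_re, ofReal_re, ofReal_im, sub_re, zero_mul, sub_zero]
    field_simp
    unfold area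
    ring
  · simp only [add_im, mul_im, ofReal_re, ofReal_im, sub_im, zero_mul, add_zero]
    field_simp
    unfold area
    ring

theorem exists_off_line (a b : ℂ) (h : a ≠ b) : ∃ p, area p a b ≠ 0 := by
  refine ⟨⟨a.re - (b.im - a.im), a.im + (b.re - a.re)⟩, ?_⟩
  have h2 : 0 < (b.re - a.re) ^ 2 + (b.im - a.im) ^ 2 := by
    rcases eq_or_ne a.re b.re with h1 | h1
    · have h3 : a.im ≠ b.im := fun h4 => h (Complex.ext h1 h4)
      have : 0 < (b.im - a.im) ^ 2 := by
        have : b.im - a.im ≠ 0 := sub_ne_zero.mpr h3.symm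
        positivity
      nlinarith [sq_nonneg (b.re - a.re)]
    · have : 0 < (b.re - a.re) ^ 2 := by
        have : b.re - a.re ≠ 0 := sub_ne_zero.mpr h1.symm
        positivity
      nlinarith [sq_nonneg (b.im - a.im)]
  unfold area
  simp only
  intro h3
  nlinarith

theorem exists_off_two (a b c d : ℂ) (hab : a ≠ b) (hcd : c ≠ d) :
    ∃ p, area p a b ≠ 0 ∧ area p c d ≠ 0 := by
  obtain ⟨p, hp⟩ := exists_off_line a b hab
  obtain ⟨q, hq⟩ := exists_off_line c d hcd
  by_cases h1 : area p c d = 0
  · by_cases h2 : area q a b = 0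
    · refine ⟨(p + q) / 2, ?_, ?_⟩
      · have : area ((p + q) / 2) a b = (area p a b + area q a b) / 2 := by
          unfold area
          simp
          ring
        rw [this, h2]
        simpa using hp
      · have : area ((p + q) / 2) c d = (area p c d + area q c d) / 2 := by
          unfold area
          simp
          ring
        rw [this, h1]
        simpa using hq
    · exact ⟨q, h2, hq⟩
  · exact ⟨p, hp, h1⟩

theorem area_rot (a b c : ℂ) : area b c a = area a b c := by
  unfold area
  ring

theorem area_swap (a b c : ℂ) : area b a c = -area a b c := by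
  unfold area
  ring

theorem area_self_left (a b : ℂ) : area a a b = 0 := by
  unfold area
  ring

theorem area_self_right (a b : ℂ) : area a b b = 0 := by
  unfold area
  ring

theorem area_self_mid (a b : ℂ) : area a b a = 0 := by
  unfold area
  ring

section final

variable {n : ℕ} (hn : 3 ≤ n)
include hn

/-- a vertex of a non-degenerate triangle can be moved anywhere -/
theorem reach_place (v : Fin n → ℂ) {i j l : Fin n} (h : area (v i) (v j) (v l) ≠ 0) (q : ℂ) :
    Reaches v (Function.update v i q) := by
  have hij : i ≠ j := by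
    rintro rfl
    exact h (area_self_left _ _)
  have hil : i ≠ l := by
    rintro rfl
    exact h (area_self_mid _ _)
  obtain ⟨p, t, rfl⟩ := area_solve (v i) (v j) (v l) q h
  exact reach_vertex hn v hij hil p t

/-- any vertex outside a non-degenerate triangle of vertices can be moved anywhere -/
theorem reach_place_other (v : Fin n → ℂ) {i j l k : Fin n}
    (h : area (v i) (v j) (v l) ≠ 0) (hki : k ≠ i) (hkj : k ≠ j) (hkl : k ≠ l) (q : ℂ) :
    Reaches v (Function.update v k q) := by
  obtain ⟨p, t, hq⟩ := area_solve (v i) (v j) (v l) (q - v k + v l) h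
  have h1 := reach_translate hn v hki hkl p
  have h2 := reach_translate hn (Function.update v k (v k + p * (v i - v l))) hkj hkl t
  rw [Function.update_idem, Function.update_self, Function.update_of_ne hkj.symm,
    Function.update_of_ne hkl.symm] at h2
  have h3 := reaches_trans h1 h2
  have e : v k + p * (v i - v l) + t * (v j - v l) = q := by
    linear_combination -hq
  rwa [e] at h3

theorem reach_place_all (v w : Fin n → ℂ) {i j l : Fin n}
    (h : area (v i) (v j) (v l) ≠ 0) (s : Finset (Fin n))
    (his : i ∉ s) (hjs : j ∉ s) (hls : l ∉ s) :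
    Reaches v (fun k => if k ∈ s then w k else v k) := by
  classical
  induction s using Finset.induction_on with
  | empty =>
    simp only [Finset.notMem_empty, if_false]
    exact Relation.ReflTransGen.refl
  | insert k s hk ih =>
    simp only [Finset.mem_insert, not_or] at his hjs hls
    have h1 := ih his.2 hjs.2 hls.2
    have h2 := reach_place_other hn (fun k => if k ∈ s then w k else v k) (i := i) (j := j)
      (l := l) (k := k) (by simpa [his.2, hjs.2, hls.2] using h) (Ne.symm his.1)
      (Ne.symm hjs.1) (Ne.symm hls.1) (w k)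
    have h3 := reaches_trans h1 h2
    have e : Function.update (fun k => if k ∈ s then w k else v k) k (w k) =
        fun m => if m ∈ insert k s then w m else v m := by
      funext m
      by_cases hm : m = k
      · subst hm
        simp
      · rw [Function.update_of_ne hm]
        simp [hm]
    rwa [e] at h3

theorem reach_triangle (v : Fin n → ℂ) {i j l : Fin n}
    (h : area (v i) (v j) (v l) ≠ 0) (x' y' z' : ℂ) (hyz : y' ≠ z') :
    Reaches v (Function.update (Function.update (Function.update v l z') j y') i x') := by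
  have hij : i ≠ j := by
    rintro rfl
    exact h (area_self_left _ _)
  have hil : i ≠ l := by
    rintro rfl
    exact h (area_self_mid _ _)
  have hjl : j ≠ l := by
    rintro rfl
    exact h (area_self_right _ _)
  have hvjl : v j ≠ v l := by
    intro h1
    rw [h1] at h
    exact h (area_self_right _ _)
  obtain ⟨p, hp1, hp2⟩ := exists_off_two (v j) (v l) y' z' hvjl hyz
  have hpl : v l ≠ p := by
    rintro rfl
    exact hp1 (area_self_mid _ _)
  have hpz : z' ≠ p := by
    rintro rfl
    exact hp2 (area_self_mid _ _)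
  obtain ⟨q, hq1, hq2⟩ := exists_off_two (v l) p z' p hpl hpz
  -- move `i` to `p`
  have s1 := reach_place hn v h p
  set v1 := Function.update v i p with hv1
  have a1 : v1 i = p := by simp [hv1]
  have b1 : v1 j = v j := by simp [hv1, hij.symm]
  have c1 : v1 l = v l := by simp [hv1, hil.symm]
  -- move `j` to `q`
  have s2 : Reaches v1 (Function.update v1 j q) := by
    refine reach_place hn v1 (i := j) (j := l) (l := i) ?_ q
    rw [a1, b1, c1, area_rot]
    exact hp1
  set v2 := Function.update v1 j q with hv2
  have a2 : v2 i = p := by simp [hv2, hij, a1]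
  have b2 : v2 j = q := by simp [hv2]
  have c2 : v2 l = v l := by simp [hv2, hjl.symm, c1]
  -- move `l` to `z'`
  have s3 : Reaches v2 (Function.update v2 l z') := by
    refine reach_place hn v2 (i := l) (j := i) (l := j) ?_ z'
    rw [a2, b2, c2, ← area_rot (v l) p q, ← area_rot p q (v l)]
    exact hq1
  set v3 := Function.update v2 l z' with hv3
  have a3 : v3 i = p := by simp [hv3, hil, a2]
  have b3 : v3 j = q := by simp [hv3, hjl, b2]
  have c3 : v3 l = z' := by simp [hv3]
  -- move `j` to `y'`
  have s4 : Reaches v3 (Function.update v3 j y') := by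
    refine reach_place hn v3 (i := j) (j := l) (l := i) ?_ y'
    rw [a3, b3, c3]
    exact hq2
  set v4 := Function.update v3 j y' with hv4
  have a4 : v4 i = p := by simp [hv4, hij, a3]
  have b4 : v4 j = y' := by simp [hv4]
  have c4 : v4 l = z' := by simp [hv4, hjl.symm, c3]
  -- move `i` to `x'`
  have s5 : Reaches v4 (Function.update v4 i x') := by
    refine reach_place hn v4 (i := i) (j := j) (l := l) ?_ x'
    rw [a4, b4, c4]
    exact hp2
  have s6 := reaches_trans (reaches_trans (reaches_trans (reaches_trans s1 s2) s3) s4) s5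
  have e : Function.update v4 i x' =
      Function.update (Function.update (Function.update v l z') j y') i x' := by
    funext m
    by_cases hmi : m = i
    · subst hmi
      simp
    · rw [Function.update_of_ne hmi, Function.update_of_ne hmi]
      by_cases hmj : m = j
      · subst hmj
        simp [hv4]
      · rw [hv4, Function.update_of_ne hmj, Function.update_of_ne hmj]
        by_cases hml : m = l
        · subst hml
          simp [hv3]
        · rw [hv3, Function.update_of_ne hml, Function.update_of_ne hml, hv2,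
            Function.update_of_ne hmj, hv1, Function.update_of_ne hmi]
  rwa [e] at s6

/-- From a polygon with three non-collinear vertices every injective polygon is reachable. -/
theorem reach_injective (v w : Fin n → ℂ) {i j l : Fin n}
    (h : area (v i) (v j) (v l) ≠ 0) (hw : Function.Injective w) : Reaches v w := by
  classical
  have hij : i ≠ j := by
    rintro rfl
    exact h (area_self_left _ _)
  have hil : i ≠ l := by
    rintro rfl
    exact h (area_self_mid _ _)
  have hjl : j ≠ l := by
    rintro rfl
    exact h (area_self_right _ _)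
  let s : Finset (Fin n) := Finset.univ.filter fun k => k ≠ i ∧ k ≠ j ∧ k ≠ l
  have his : i ∉ s := by simp [s]
  have hjs : j ∉ s := by simp [s]
  have hls : l ∉ s := by simp [s]
  have h1 := reach_place_all hn v w h s his hjs hls
  have h2 := reach_triangle hn (fun k => if k ∈ s then w k else v k) (i := i) (j := j) (l := l)
    (by simpa only [if_neg his, if_neg hjs, if_neg hls] using h) (w i) (w j) (w l)
    (fun h => hjl (hw h))
  have h3 := reaches_trans h1 h2
  have e : Function.update (Function.update (Function.update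
      (fun k => if k ∈ s then w k else v k) l (w l)) j (w j)) i (w i) = w := by
    funext m
    by_cases hmi : m = i
    · subst hmi
      simp
    · rw [Function.update_of_ne hmi]
      by_cases hmj : m = j
      · subst hmj
        simp
      · rw [Function.update_of_ne hmj]
        by_cases hml : m = l
        · subst hml
          simp
        · rw [Function.update_of_ne hml]
          have : m ∈ s := by simp [s, hmi, hmj, hml]
          simp [this]
  rwa [e] at h3

theorem regular_injective (w : Fin n → ℂ) (hw : IsRegularPolygon w) : Function.Injective w := by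
  obtain ⟨c, r, hr, hw⟩ := hw
  have hn0 : n ≠ 0 := by omega
  have hprim := Complex.isPrimitiveRoot_exp n hn0
  have hpow : ∀ k : ℕ, exp (2 * Real.pi * I * k / n) = exp (2 * Real.pi * I / n) ^ k := by
    intro k
    rw [← Complex.exp_nat_mul]
    congr 1
    ring
  intro j k hjk
  have key : exp (2 * Real.pi * I * (j : ℕ) / n) = exp (2 * Real.pi * I * (k : ℕ) / n) := by
    rcases hw with hw | hw
    · rw [hw j, hw k] at hjk
      exact mul_left_cancel₀ hr (add_left_cancel hjk)
    · rw [hw j, hw k] at hjk
      have h1 := mul_left_cancel₀ hr (add_left_cancel hjk)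
      rw [Complex.exp_neg, Complex.exp_neg] at h1
      exact inv_injective h1
  rw [hpow, hpow] at key
  exact Fin.ext (hprim.pow_inj j.2 k.2 key)

end final

section simple

theorem fin_add_one_ne {m : ℕ} (hm : 2 ≤ m) (i : Fin (m + 1)) : i + 1 ≠ i := by
  intro h
  have h1 := congrArg Fin.val h
  rw [Fin.val_add, Fin.val_one'] at h1
  have hi := i.2
  rw [Nat.mod_eq_of_lt (show 1 < m + 1 by omega)] at h1
  by_cases h2 : (i : ℕ) + 1 < m + 1
  · rw [Nat.mod_eq_of_lt h2] at h1
    omega
  · have : (i : ℕ) + 1 = m + 1 := by omega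
    rw [this, Nat.mod_self] at h1
    omega

theorem fin_add_two_ne {m : ℕ} (hm : 2 ≤ m) (i : Fin (m + 1)) : i + 1 + 1 ≠ i := by
  intro h
  have h1 := congrArg Fin.val h
  rw [Fin.val_add, Fin.val_add, Fin.val_one'] at h1
  have hi := i.2
  rw [Nat.mod_eq_of_lt (show 1 < m + 1 by omega)] at h1
  by_cases h2 : (i : ℕ) + 1 < m + 1
  · rw [Nat.mod_eq_of_lt h2] at h1
    by_cases h3 : (i : ℕ) + 1 + 1 < m + 1
    · rw [Nat.mod_eq_of_lt h3] at h1
      omega
    · have : (i : ℕ) + 1 + 1 = m + 1 := by omega
      rw [this, Nat.mod_self] at h1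
      omega
  · have : (i : ℕ) + 1 = m + 1 := by omega
    rw [this, Nat.mod_self, Nat.mod_eq_of_lt (show 0 + 1 < m + 1 by omega)] at h1
    omega

/-- In a simple polygon two consecutive collinear edges point in the same direction. -/
theorem simple_edge_positive {m : ℕ} (hm : 2 ≤ m) (v : Fin (m + 1) → ℂ)
    (hv : IsSimplePolygon v) (i : Fin (m + 1))
    (h : area (v i) (v (i + 1)) (v (i + 1 + 1)) = 0) :
    ∃ c : ℝ, 0 < c ∧ v (i + 1 + 1) - v (i + 1) = c * (v (i + 1) - v i) := by
  obtain ⟨hinj, hedge⟩ := hv
  have h01 : v (i + 1) ≠ v i := fun h => fin_add_one_ne hm i (hinj h)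
  have h12 : v (i + 1 + 1) ≠ v (i + 1) := fun h => fin_add_one_ne hm (i + 1) (hinj h)
  have h02 : v (i + 1 + 1) ≠ v i := fun h => fin_add_two_ne hm i (hinj h)
  set x := v i with hx
  set y := v (i + 1) with hy
  set z := v (i + 1 + 1) with hz
  have hsub : y - x ≠ 0 := sub_ne_zero.mpr h01
  -- the ratio
  have hN : 0 < (y.re - x.re) ^ 2 + (y.im - x.im) ^ 2 := by
    have : 0 < normSq (y - x) := normSq_pos.mpr hsub
    rw [normSq_apply] at this
    simp only [sub_re, sub_im] at this
    nlinarith
  obtain ⟨c, hc⟩ : ∃ c : ℝ, z - y = c * (y - x) := by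
    refine ⟨((z.re - y.re) * (y.re - x.re) + (z.im - y.im) * (y.im - x.im)) /
      ((y.re - x.re) ^ 2 + (y.im - x.im) ^ 2), ?_⟩
    unfold area at h
    apply Complex.ext
    · simp only [sub_re, mul_re, ofReal_re, ofReal_im, zero_mul, sub_zero]
      field_simp
      linear_combination (-(y.im - x.im)) * h
    · simp only [sub_im, mul_im, ofReal_re, ofReal_im, zero_mul, add_zero]
      field_simp
      linear_combination (y.re - x.re) * h
  refine ⟨c, ?_, hc⟩
  by_contra hcon
  push Not at hcon
  have hc0 : c ≠ 0 := by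
    rintro rfl
    apply h12
    have : z - y = 0 := by simpa using hc
    exact sub_eq_zero.mp this
  have hneg : c < 0 := lt_of_le_of_ne hcon hc0
  -- the common point
  set ε : ℝ := min 1 (-c) with hε
  have hε0 : 0 < ε := lt_min one_pos (by linarith)
  have hε1 : ε ≤ 1 := min_le_left _ _
  have hεc : ε ≤ -c := min_le_right _ _
  set P : ℂ := y - ε * (y - x) with hP
  have hP1 : P ∈ segment ℝ x y := by
    refine ⟨ε, 1 - ε, hε0.le, by linarith, by ring, ?_⟩
    simp only [real_smul, hP]
    push_cast
    ring
  have hP2 : P ∈ segment ℝ y z := by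
    refine ⟨1 - ε / (-c), ε / (-c), ?_, ?_, by ring, ?_⟩
    · rw [sub_nonneg, div_le_one (by linarith)]
      exact hεc
    · exact div_nonneg hε0.le (by linarith)
    · have hzc : z = y + c * (y - x) := by linear_combination hc
      have hcc : (c : ℂ) ≠ 0 := by exact_mod_cast hc0
      simp only [real_smul, hP]
      rw [hzc]
      push_cast
      field_simp
      ring
  have hne : i ≠ i + 1 := (fin_add_one_ne hm i).symm
  have hmem := hedge i (i + 1) hne ⟨hP1, hP2⟩
  have hPy : P ≠ y := by
    intro h
    have h5 : (ε : ℂ) * (y - x) = 0 := by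
      have : y - ε * (y - x) = y := by rw [← hP]; exact h
      linear_combination -this
    rcases mul_eq_zero.mp h5 with h6 | h6
    · have : ε = 0 := by exact_mod_cast h6
      linarith
    · exact hsub h6
  obtain ⟨h7, h8⟩ := hmem
  simp only [Set.mem_insert_iff, Set.mem_singleton_iff] at h7 h8
  have h7' : P = x := h7.resolve_right hPy
  have h8' : P = z := h8.resolve_left hPy
  exact h02 (h8'.symm.trans h7')

theorem simple_noncollinear {m : ℕ} (hm : 2 ≤ m) (v : Fin (m + 1) → ℂ)
    (hv : IsSimplePolygon v) : ∃ i j l : Fin (m + 1), area (v i) (v j) (v l) ≠ 0 := by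
  by_contra hcon
  push Not at hcon
  have hpos : ∀ i : Fin (m + 1), ∃ c : ℝ, 0 < c ∧ v (i + 1) - v i = c * (v (0 + 1) - v 0) := by
    intro i
    induction i using Fin.induction with
    | zero => exact ⟨1, one_pos, by simp⟩
    | succ i ih =>
      obtain ⟨c, hc, h1⟩ := ih
      obtain ⟨d, hd, h2⟩ := simple_edge_positive hm v hv i.castSucc (hcon _ _ _)
      rw [Fin.coeSucc_eq_succ] at h1 h2
      refine ⟨d * c, mul_pos hd hc, ?_⟩
      rw [h2, h1]
      push_cast
      ring
  choose c hc hvc using hpos
  have hsum : ∑ i : Fin (m + 1), (v (i + 1) - v i) = 0 := by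
    rw [Finset.sum_sub_distrib, sub_eq_zero]
    exact Equiv.sum_comp (Equiv.addRight (1 : Fin (m + 1))) v
  rw [Finset.sum_congr rfl fun i _ => hvc i, ← Finset.sum_mul] at hsum
  have hne : v (0 + 1) - v 0 ≠ 0 :=
    sub_ne_zero.mpr fun h => fin_add_one_ne hm 0 (hv.1 h)
  have h1 := (mul_eq_zero.mp hsum).resolve_right hne
  have h2 : (∑ i, c i : ℝ) = 0 := by
    have : ((∑ i, c i : ℝ) : ℂ) = 0 := by
      push_cast
      exact h1
    exact_mod_cast this
  have h3 : 0 < ∑ i, c i := Finset.sum_pos (fun i _ => hc i) Finset.univ_nonempty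
  linarith

end simple

/-- For every `n ≥ 3`, every simple polygon with `n` vertices can be carried to every regular
polygon with `n` vertices by a finite sequence of vertex-centroid moves. -/
theorem result : ∀ (n : ℕ) [NeZero n], 3 ≤ n → ∀ v w : Fin n → ℂ,
    IsSimplePolygon v → IsRegularPolygon w → Reaches v w := by
  intro n _ hn v w hv hw
  have hinj := regular_injective hn w hw
  obtain ⟨i, j, l, h⟩ : ∃ i j l : Fin n, area (v i) (v j) (v l) ≠ 0 := by
    obtain ⟨m, rfl⟩ : ∃ m, n = m + 1 := ⟨n - 1, by omega⟩
    exact simple_noncollinear (by omega) v hv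
  exact reach_injective hn v w h hinj

end Pool.Agent.Results.MP_06c496_co.RegularReach
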